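import Mathlib.Algebra.Algebra.NonUnitalHom
import Mathlib.ModelTheory.Semantics

/-! Definitions for MP_00fd70_lc: nilpotent associative algebras as first-order structures. -/

open FirstOrder

universe u v w

namespace Pool.Agent.MP_00fd70_lc

/-- Function symbols: `0`, `-`, multiplication by a scalar `c : P`, `+`, `*`. -/
inductive Fn (P : Type u) : ℕ → Type u
  | zero : Fn P 0
  | neg : Fn P 1
  | smul (c : P) : Fn P 1
  | add : Fn P 2
  | mul : Fn P 2

/-- The language of non-unital `P`-algebras (no relation symbols). -/
def Lang (P : Type u) : FirstOrder.Language.{u, 0} := ⟨Fn P, fun _ => Empty⟩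

/-- A non-unital `P`-algebra as a structure in this language. -/
instance str (P : Type u) [Field P] (A : Type v) [NonUnitalRing A] [Module P A] :
    (Lang P).Structure A where
  funMap {_} f x := match f with
    | Fn.zero => 0
    | Fn.neg => - x 0
    | Fn.smul c => c • x 0
    | Fn.add => x 0 + x 1
    | Fn.mul => x 0 * x 1
  RelMap {_} r _ := Empty.elim r

/-- The identity `x₁ x₂ ⋯ xₙ = 0`. -/
def IsNil (n : ℕ) (A : Type v) [NonUnitalRing A] : Prop :=
  ∀ (l : List A) (a : A), l.length + 1 = n → l.foldr (· * ·) a = 0

/-- `W` is the free algebra of the variety on `x₁, …, x_k`. -/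
def IsFree (P : Type u) [Field P] (n : ℕ) (W : Type u) [NonUnitalRing W] [Module P W]
    {k : ℕ} (x : Fin k → W) : Prop :=
  IsNil n W ∧ ∀ (H : Type u) [NonUnitalRing H] [Module P H] [IsScalarTower P H H]
    [SMulCommClass P H H], IsNil n H → ∀ f : Fin k → H, ∃! φ : W →ₙₐ[P] H, ∀ i, φ (x i) = f i

/-- The type of a tuple: the set of formulas without parameters that it satisfies. -/
def tp (P : Type u) [Field P] (A : Type v) [NonUnitalRing A] [Module P A] {k : ℕ}
    (a : Fin k → A) : Set ((Lang P).Formula (Fin k)) :=
  {φ | φ.Realize a}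

/-- Isotypic algebras realise the same types of `k`-tuples for every `k ≥ 1`. -/
def Isotypic (P : Type u) [Field P] (A : Type v) [NonUnitalRing A] [Module P A]
    (B : Type w) [NonUnitalRing B] [Module P B] : Prop :=
  ∀ k : ℕ, 1 ≤ k → Set.range (tp P A (k := k)) = Set.range (tp P B (k := k))

/-- Logical homogeneity: tuples have the same type iff an automorphism maps one to the other. -/
def Homogeneous (P : Type u) [Field P] (A : Type v) [NonUnitalRing A] [Module P A] : Prop :=
  ∀ (k : ℕ) (a b : Fin k → A), tp P A a = tp P A b ↔ ∃ σ : A ≃[Lang P] A, σ ∘ a = b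

end Pool.Agent.MP_00fd70_lc
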