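import Mathlib.Algebra.Algebra.Unitization
import Mathlib.Algebra.Order.Ring.Star
import Mathlib.RingTheory.PicardGroup
import Mathlib.Algebra.RingQuot
import Mathlib.Data.Set.Finite.List
import Mathlib.RingTheory.SimpleRing.Principal
import Pool.Agent.MP_00fd70_lc.Defs

set_option linter.unusedSectionVars false
set_option linter.unusedSimpArgs false

open FirstOrder FirstOrder.Language

universe u v w

namespace Pool.Agent.MP_00fd70_lc

variable {P : Type u} [Field P]

section terms

variable {α : Type*}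

def tZero : (Lang P).Term α := Term.func (L := Lang P) Fn.zero ![]
def tNeg (t : (Lang P).Term α) : (Lang P).Term α := Term.func (L := Lang P) Fn.neg ![t]
def tSmul (c : P) (t : (Lang P).Term α) : (Lang P).Term α :=
  Term.func (L := Lang P) (Fn.smul c) ![t]
def tAdd (s t : (Lang P).Term α) : (Lang P).Term α := Term.func (L := Lang P) Fn.add ![s, t]
def tMul (s t : (Lang P).Term α) : (Lang P).Term α := Term.func (L := Lang P) Fn.mul ![s, t]
def tSum (l : List ((Lang P).Term α)) : (Lang P).Term α := l.foldr tAdd tZero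

variable {A : Type v} [NonUnitalRing A] [Module P A] (v : α → A)

@[simp] lemma realize_tZero : (tZero (P := P) (α := α)).realize v = 0 := rfl
@[simp] lemma realize_tNeg (t : (Lang P).Term α) : (tNeg t).realize v = - t.realize v := rfl
@[simp] lemma realize_tSmul (c : P) (t : (Lang P).Term α) :
    (tSmul c t).realize v = c • t.realize v := rfl
@[simp] lemma realize_tAdd (s t : (Lang P).Term α) :
    (tAdd s t).realize v = s.realize v + t.realize v := rfl
@[simp] lemma realize_tMul (s t : (Lang P).Term α) :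
    (tMul s t).realize v = s.realize v * t.realize v := rfl
@[simp] lemma realize_tSum (l : List ((Lang P).Term α)) :
    (tSum l).realize v = (l.map fun t => t.realize v).sum := by
  induction l with
  | nil => rfl
  | cons a l ih =>
    show a.realize v + (tSum l).realize v = _
    rw [ih]; simp

lemma realize_tSum_ofFn {k : ℕ} (f : Fin k → (Lang P).Term α) :
    (tSum (List.ofFn f)).realize v = ∑ i, (f i).realize v := by
  rw [realize_tSum, List.map_ofFn, List.sum_ofFn]; rfl

end terms

section homs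

variable {A : Type v} [NonUnitalRing A] [Module P A] {B : Type w} [NonUnitalRing B] [Module P B]

/-- a map preserving the operations commutes with the function symbols -/
lemma map_funMap (σ : A → B) (h0 : σ 0 = 0) (hneg : ∀ a, σ (-a) = -σ a)
    (hsmul : ∀ (c : P) a, σ (c • a) = c • σ a) (hadd : ∀ a b, σ (a + b) = σ a + σ b)
    (hmul : ∀ a b, σ (a * b) = σ a * σ b) {n : ℕ} (f : (Lang P).Functions n) (x : Fin n → A) :
    σ (Structure.funMap f x) = Structure.funMap f (σ ∘ x) := by
  cases f with
  | zero => exact h0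
  | neg => exact hneg _
  | smul c => exact hsmul c _
  | add => exact hadd _ _
  | mul => exact hmul _ _

/-- a multiplicative linear equivalence is an isomorphism of structures -/
def equivOfLinear (σ : A ≃ₗ[P] B) (hmul : ∀ a b, σ (a * b) = σ a * σ b) : A ≃[Lang P] B where
  toEquiv := σ.toEquiv
  map_fun' := fun f x => map_funMap (P := P) σ (map_zero σ) (map_neg σ) (map_smul σ) (map_add σ)
    hmul f x
  map_rel' := fun r _ => Empty.elim r

lemma map_realize (φ : A →ₙₐ[P] B) {α : Type*} (t : (Lang P).Term α) (v : α → A) :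
    φ (t.realize v) = t.realize (φ ∘ v) := by
  induction t with
  | var => rfl
  | func f ts ih =>
    simp only [Term.realize_func]
    rw [map_funMap (P := P) φ (map_zero φ) (map_neg φ) (map_smul φ) (map_add φ) (map_mul φ)]
    congr 1
    funext i
    exact ih i

lemma tp_comp {k l : ℕ} {a : Fin k → A} {b : Fin k → B} (h : tp P A a = tp P B b)
    (f : Fin l → Fin k) : tp P A (a ∘ f) = tp P B (b ∘ f) := by
  ext φ
  have := Set.ext_iff.mp h (φ.relabel f)
  simpa [tp, Formula.realize_relabel] using this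

lemma realize_eq_iff_of_tp {k : ℕ} {a : Fin k → A} {b : Fin k → B} (h : tp P A a = tp P B b)
    (s t : (Lang P).Term (Fin k)) :
    s.realize a = t.realize a ↔ s.realize b = t.realize b := by
  have := Set.ext_iff.mp h (s.equal t)
  simpa [tp, Formula.realize_equal] using this

end homs

section gen

variable {A : Type v} [NonUnitalRing A] [Module P A] [IsScalarTower P A A] [SMulCommClass P A A]

/-- the values of terms at a tuple -/
def termSub {k : ℕ} (y : Fin k → A) : NonUnitalSubalgebra P A where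
  carrier := {w | ∃ t : (Lang P).Term (Fin k), t.realize y = w}
  add_mem' := by
    rintro _ _ ⟨s, rfl⟩ ⟨t, rfl⟩; exact ⟨tAdd s t, rfl⟩
  zero_mem' := ⟨tZero, rfl⟩
  mul_mem' := by
    rintro _ _ ⟨s, rfl⟩ ⟨t, rfl⟩; exact ⟨tMul s t, rfl⟩
  smul_mem' := by
    rintro c _ ⟨s, rfl⟩; exact ⟨tSmul c s, rfl⟩

/-- the right ideal `∑ y i * A` -/
def Q (P : Type u) [Field P] {A : Type v} [NonUnitalRing A] [Module P A] [IsScalarTower P A A]
    [SMulCommClass P A A] {k : ℕ} (y : Fin k → A) : Submodule P A where
  carrier := {w | ∃ z : Fin k → A, w = ∑ i, y i * z i}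
  add_mem' := by
    rintro _ _ ⟨s, rfl⟩ ⟨t, rfl⟩
    exact ⟨s + t, by simp [mul_add, Finset.sum_add_distrib]⟩
  zero_mem' := ⟨0, by simp⟩
  smul_mem' := by
    rintro c _ ⟨s, rfl⟩
    exact ⟨c • s, by simp [Finset.smul_sum, mul_smul_comm]⟩

lemma mul_mem_Q {k : ℕ} (y : Fin k → A) (i : Fin k) (z : A) : y i * z ∈ Q P y := by
  classical
  refine ⟨Pi.single i z, ?_⟩
  rw [Finset.sum_eq_single i] <;> simp +contextual [Pi.single_apply]

lemma Q_mul_mem {k : ℕ} (y : Fin k → A) {w : A} (hw : w ∈ Q P y) (z : A) : w * z ∈ Q P y := by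
  obtain ⟨s, rfl⟩ := hw
  exact ⟨fun i => s i * z, by simp [Finset.sum_mul, mul_assoc]⟩

lemma span_mul_mem {k : ℕ} (y : Fin k → A) {w : A}
    (hw : w ∈ Submodule.span P (Set.range y) ⊔ Q P y) (z : A) : w * z ∈ Q P y := by
  obtain ⟨a, ha, b, hb, rfl⟩ := Submodule.mem_sup.mp hw
  rw [add_mul]
  refine add_mem ?_ (Q_mul_mem y hb z)
  obtain ⟨c, rfl⟩ := (Submodule.mem_span_range_iff_exists_fun P).mp ha
  rw [Finset.sum_mul]
  refine Submodule.sum_mem _ fun i _ => ?_
  rw [smul_mul_assoc]
  exact Submodule.smul_mem _ _ (mul_mem_Q y i z)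

/-- left multiplication by a list of elements, as a linear map -/
def lmul (P : Type u) [Field P] {A : Type v} [NonUnitalRing A] [Module P A] [IsScalarTower P A A]
    [SMulCommClass P A A] : List A → A →ₗ[P] A
  | [] => LinearMap.id
  | a :: l => (LinearMap.mul P A a).comp (lmul P l)

lemma lmul_apply (l : List A) (z : A) : lmul P l z = l.foldr (· * ·) z := by
  induction l with
  | nil => rfl
  | cons a l ih => simp [lmul, ih]

/-- If `y` spans `A` modulo `∑ y i A` and `A` is nilpotent, the monomials in `y` span `A`. -/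
lemma eq_top_of_monomials {n k : ℕ} (hn : 1 ≤ n) (hA : IsNil n A) (y : Fin k → A)
    (hy : Submodule.span P (Set.range y) ⊔ Q P y = ⊤) (S : Submodule P A)
    (hS : ∀ (l : List (Fin k)) (i : Fin k), l.length < n → (l.map y).foldr (· * ·) (y i) ∈ S) :
    S = ⊤ := by
  have key : ∀ (d : ℕ) (l : List (Fin k)), l.length + 1 + d = n →
      ∀ z, (l.map y).foldr (· * ·) z ∈ S := by
    intro d
    induction d with
    | zero =>
      intro l hl z
      rw [hA (l.map y) z (by simpa using hl)]
      exact S.zero_mem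
    | succ d ih =>
      intro l hl z
      have hz : z ∈ Submodule.span P (Set.range y) ⊔ Q P y := hy ▸ Submodule.mem_top
      obtain ⟨a, ha, b, ⟨s, rfl⟩, rfl⟩ := Submodule.mem_sup.mp hz
      obtain ⟨c, rfl⟩ := (Submodule.mem_span_range_iff_exists_fun P).mp ha
      rw [← lmul_apply (P := P), map_add, map_sum, map_sum]
      refine add_mem (Submodule.sum_mem _ fun i _ => ?_) (Submodule.sum_mem _ fun i _ => ?_)
      · rw [map_smul, lmul_apply]
        exact S.smul_mem _ (hS l i (by omega))
      · rw [lmul_apply]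
        have := ih (l ++ [i]) (by simp; omega) (s i)
        simpa using this
  rw [eq_top_iff]
  intro z _
  have := key (n - 1) [] (by simp; omega) z
  simpa using this

lemma foldr_mem_termSub {k : ℕ} (y : Fin k → A) (l : List (Fin k)) (i : Fin k) :
    (l.map y).foldr (· * ·) (y i) ∈ termSub (P := P) y := by
  induction l with
  | nil => exact ⟨Term.var i, rfl⟩
  | cons j l ih => exact mul_mem ⟨Term.var j, rfl⟩ ih

lemma exists_term {n k : ℕ} (hn : 1 ≤ n) (hA : IsNil n A) (y : Fin k → A)
    (hy : Submodule.span P (Set.range y) ⊔ Q P y = ⊤) (w : A) :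
    ∃ t : (Lang P).Term (Fin k), t.realize y = w := by
  have := eq_top_of_monomials hn hA y hy (termSub (P := P) y).toSubmodule
    fun l i _ => foldr_mem_termSub y l i
  have hw : w ∈ (termSub (P := P) y).toSubmodule := this ▸ Submodule.mem_top
  exact hw

lemma finite_of_gen {n k : ℕ} (hn : 1 ≤ n) (hA : IsNil n A) (y : Fin k → A)
    (hy : Submodule.span P (Set.range y) ⊔ Q P y = ⊤) : FiniteDimensional P A := by
  let T : Set A := (fun p : List (Fin k) × Fin k => (p.1.map y).foldr (· * ·) (y p.2)) ''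
    ({l : List (Fin k) | l.length < n} ×ˢ Set.univ)
  have hT : T.Finite := ((List.finite_length_lt (Fin k) n).prod Set.finite_univ).image _
  have := eq_top_of_monomials hn hA y hy (Submodule.span P T)
    fun l i hl => Submodule.subset_span ⟨(l, i), ⟨hl, trivial⟩, rfl⟩
  exact ⟨⟨hT.toFinset, by simpa using this⟩⟩

end gen

/-- The algebra `t P[t] / (t ^ 3)`. -/
@[ext] structure Tr (P : Type u) where
  a : P
  b : P

namespace Tr

def e : Tr P ≃ P × P := ⟨fun x => (x.a, x.b), fun x => ⟨x.1, x.2⟩, fun _ => rfl, fun _ => rfl⟩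

instance : AddCommGroup (Tr P) := (e (P := P)).addCommGroup
instance : Module P (Tr P) := (e (P := P)).module P
instance : Mul (Tr P) := ⟨fun x y => ⟨0, x.a * y.a⟩⟩

@[simp] lemma add_a (x y : Tr P) : (x + y).a = x.a + y.a := rfl
@[simp] lemma add_b (x y : Tr P) : (x + y).b = x.b + y.b := rfl
@[simp] lemma zero_a : (0 : Tr P).a = 0 := rfl
@[simp] lemma zero_b : (0 : Tr P).b = 0 := rfl
@[simp] lemma smul_a (c : P) (x : Tr P) : (c • x).a = c * x.a := rfl
@[simp] lemma smul_b (c : P) (x : Tr P) : (c • x).b = c * x.b := rfl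
@[simp] lemma mul_a (x y : Tr P) : (x * y).a = 0 := rfl
@[simp] lemma mul_b (x y : Tr P) : (x * y).b = x.a * y.a := rfl

instance : NonUnitalRing (Tr P) where
  left_distrib x y z := by ext <;> simp [mul_add]
  right_distrib x y z := by ext <;> simp [add_mul]
  zero_mul x := by ext <;> simp
  mul_zero x := by ext <;> simp
  mul_assoc x y z := by ext <;> simp

instance : IsScalarTower P (Tr P) (Tr P) := ⟨fun c x y => by
  ext <;> simp [mul_assoc]⟩

instance : SMulCommClass P (Tr P) (Tr P) := ⟨fun c x y => by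
  ext <;> simp [mul_left_comm]⟩

lemma isNil {n : ℕ} (hn : 3 ≤ n) : IsNil n (Tr P) := by
  intro l a hl
  match l, hl with
  | [], hl => simp at hl; omega
  | [_], hl => simp at hl; omega
  | x :: y :: l, _ => ext <;> simp

/-- the coefficient of `t` -/
def aL : Tr P →ₗ[P] P := ⟨⟨fun x => x.a, fun _ _ => rfl⟩, fun _ _ => rfl⟩

end Tr

section free

variable {n k : ℕ} {W : Type u} [NonUnitalRing W] [Module P W] [IsScalarTower P W W]
  [SMulCommClass P W W] {x : Fin k → W}

lemma IsNil.sub {A : Type v} [NonUnitalRing A] [Module P A] (hA : IsNil n A)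
    (S : NonUnitalSubalgebra P A) : IsNil n S := by
  intro l a hl
  apply Subtype.ext
  have h := hA (l.map Subtype.val) a (by simpa using hl)
  rw [List.foldr_map] at h
  refine Eq.trans ?_ h
  clear h hl
  induction l with
  | nil => rfl
  | cons b l ih => simp [ih]

lemma IsFree.sub_eq_top (hW : IsFree P n W x) (S : NonUnitalSubalgebra P W)
    (hS : ∀ i, x i ∈ S) (w : W) : w ∈ S := by
  obtain ⟨φ, hφ, -⟩ := hW.2 S (hW.1.sub S) (fun i => ⟨x i, hS i⟩)
  obtain ⟨ψ, -, hψ⟩ := hW.2 W hW.1 x
  have h1 : (NonUnitalSubalgebraClass.subtype S).comp φ = ψ := hψ _ (fun i => by simp [hφ])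
  have h2 : NonUnitalAlgHom.id P W = ψ := hψ _ (fun i => rfl)
  have h3 : ((φ w : S) : W) = w := by
    have := congrArg (fun f : W →ₙₐ[P] W => f w) (h1.trans h2.symm)
    simpa using this
  rw [← h3]
  exact (φ w).2

lemma IsFree.gen (hW : IsFree P n W x) : Submodule.span P (Set.range x) ⊔ Q P x = ⊤ := by
  let S : NonUnitalSubalgebra P W :=
    { toSubmodule := Submodule.span P (Set.range x) ⊔ Q P x
      mul_mem' := fun {a b} ha _ => Submodule.mem_sup_right (span_mul_mem x ha b) }
  rw [eq_top_iff]
  intro w _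
  exact hW.sub_eq_top S (fun i => Submodule.mem_sup_left (Submodule.subset_span ⟨i, rfl⟩)) w

/-- For `n ≥ 3`, a tuple `y` with `W² ⊆ ∑ y i W` generates the free algebra. -/
lemma IsFree.gen_of_sq (hW : IsFree P n W x) (hn : 3 ≤ n) {m : ℕ} (y : Fin m → W)
    (hy : ∀ u v : W, u * v ∈ Q P y) : Submodule.span P (Set.range y) ⊔ Q P y = ⊤ := by
  by_contra hne
  obtain ⟨φ, hφ0, hφ⟩ := Submodule.exists_le_ker_of_lt_top _ (lt_top_iff_ne_top.mpr hne)
  obtain ⟨θ, hθ, -⟩ := hW.2 (Tr P) (Tr.isNil hn) (fun i => ⟨φ (x i), 0⟩)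
  have hmul : ∀ u v : W, φ (u * v) = 0 := fun u v => hφ (Submodule.mem_sup_right (hy u v))
  have ha : ∀ w, (θ w).a = φ w := by
    intro w
    have hw : w ∈ Submodule.span P (Set.range x) ⊔ Q P x := hW.gen ▸ Submodule.mem_top
    obtain ⟨a, ha, b, ⟨s, rfl⟩, rfl⟩ := Submodule.mem_sup.mp hw
    obtain ⟨c, rfl⟩ := (Submodule.mem_span_range_iff_exists_fun P).mp ha
    change Tr.aL (θ _) = _
    simp only [map_add, map_sum, map_smul, map_mul, hθ, hmul]
    simp [Tr.aL]
  obtain ⟨u, hu⟩ : ∃ u, φ u ≠ 0 := by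
    by_contra h
    push Not at h
    exact hφ0 (LinearMap.ext h)
  obtain ⟨z, hz⟩ := hy u u
  have h1 : θ (u * u) = 0 := by
    rw [hz, map_sum]
    refine Finset.sum_eq_zero fun i _ => ?_
    have : φ (y i) = 0 := hφ (Submodule.mem_sup_left (Submodule.subset_span ⟨i, rfl⟩))
    ext <;> simp [ha, this]
  have h2 := congrArg Tr.b h1
  simp [ha, hu] at h2

/-- A generating tuple of the right length is the image of `x` under an automorphism. -/
lemma IsFree.exists_aut (hW : IsFree P n W x) (hn : 1 ≤ n) (y : Fin k → W)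
    (hy : Submodule.span P (Set.range y) ⊔ Q P y = ⊤) :
    ∃ σ : W ≃[Lang P] W, ∀ t : (Lang P).Term (Fin k), σ (t.realize x) = t.realize y := by
  obtain ⟨φ, hφ, -⟩ := hW.2 W hW.1 y
  have hφt : ∀ t : (Lang P).Term (Fin k), φ (t.realize x) = t.realize y := by
    intro t
    rw [map_realize]
    congr 1
    funext i
    exact hφ i
  have hsurj : Function.Surjective φ := by
    intro w
    obtain ⟨t, rfl⟩ := exists_term hn hW.1 y hy w
    exact ⟨_, hφt t⟩
  have := finite_of_gen hn hW.1 x hW.gen
  let φL : W →ₗ[P] W := φ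
  have hinj : Function.Injective φL := LinearMap.injective_iff_surjective.mpr hsurj
  exact ⟨equivOfLinear (LinearEquiv.ofBijective φL ⟨hinj, hsurj⟩) (map_mul φ), hφt⟩

/-- the formula `∀ u v, ∃ z, u * v = ∑ y i * z i` in the variables `y` -/
noncomputable def genF (P : Type u) (k : ℕ) : (Lang P).Formula (Fin k) :=
  Formula.iAlls (Fin 2) (Formula.iExs (Fin k)
    (Term.equal (tMul (Term.var (Sum.inl (Sum.inr 0))) (Term.var (Sum.inl (Sum.inr 1))))
      (tSum (List.ofFn fun i : Fin k =>
        tMul (Term.var (Sum.inl (Sum.inl i))) (Term.var (Sum.inr i))))))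

lemma realize_genF (y : Fin k → W) : (genF P k).Realize y ↔ ∀ u v : W, u * v ∈ Q P y := by
  simp only [genF, Formula.realize_iAlls, Formula.realize_iExs, Formula.realize_equal,
    realize_tSum_ofFn, realize_tMul, Term.realize_var, Sum.elim_inl, Sum.elim_inr]
  constructor
  · intro h u v
    exact h ![u, v]
  · intro h i
    exact h (i 0) (i 1)

lemma IsFree.homogeneous_aux (hW : IsFree P n W x) (hn : 2 ≤ n) {m : ℕ} (a b : Fin m → W)
    (h : tp P W a = tp P W b) : ∃ σ : W ≃[Lang P] W, σ ∘ a = b := by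
  rcases hn.eq_or_lt with rfl | hn3
  · -- zero multiplication
    have hmul : ∀ u v : W, u * v = 0 := fun u v => hW.1 [u] v rfl
    have := finite_of_gen (by norm_num) hW.1 x hW.gen
    let la := Fintype.linearCombination P a
    let lb := Fintype.linearCombination P b
    have hker : LinearMap.ker la = LinearMap.ker lb := by
      ext c
      have := realize_eq_iff_of_tp h (tSum (List.ofFn fun i => tSmul (c i) (Term.var i))) tZero
      rw [realize_tSum_ofFn, realize_tSum_ofFn] at this
      simpa [la, lb, Fintype.linearCombination_apply] using this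
    let f : LinearMap.range la ≃ₗ[P] LinearMap.range lb :=
      la.quotKerEquivRange.symm ≪≫ₗ Submodule.quotEquivOfEq _ _ hker ≪≫ₗ lb.quotKerEquivRange
    obtain ⟨g, hg⟩ := Submodule.exists_linearEquiv_restrict_eq f
    refine ⟨equivOfLinear g (fun u v => by simp [hmul]), ?_⟩
    classical
    funext i
    have h1 : la (Pi.single i 1) = a i := by simp [la]
    have h2 : lb (Pi.single i 1) = b i := by simp [lb]
    have h3 := hg ⟨la (Pi.single i 1), LinearMap.mem_range_self _ _⟩
    have h4 : (f ⟨la (Pi.single i 1), LinearMap.mem_range_self _ _⟩ : W) = lb (Pi.single i 1) := by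
      simp only [f, LinearEquiv.trans_apply, LinearMap.quotKerEquivRange_symm_apply_image]
      rfl
    change g (a i) = b i
    rw [← h1, ← h2, ← h4, h3]
  · choose t ht using fun j => exists_term (P := P) (by omega) hW.1 x hW.gen (a j)
    let ψ : (Lang P).Formula (Fin m) := Formula.iExs (Fin k)
      ((genF P k).relabel Sum.inr ⊓
        Formula.iInf fun j => Term.equal (Term.var (Sum.inl j)) ((t j).relabel Sum.inr))
    have hψ : ∀ c : Fin m → W, ψ.Realize c ↔
        ∃ y : Fin k → W, (∀ u v : W, u * v ∈ Q P y) ∧ ∀ j, c j = (t j).realize y := by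
      intro c
      simp only [ψ, Formula.realize_iExs, Formula.realize_inf, Formula.realize_relabel,
        Formula.realize_iInf, Formula.realize_equal, Term.realize_var, Term.realize_relabel,
        Sum.elim_inl, Sum.elim_comp_inr, realize_genF]
    have ha : ψ.Realize a := (hψ a).2
      ⟨x, fun u v => span_mul_mem x (hW.gen ▸ Submodule.mem_top) v, fun j => (ht j).symm⟩
    have hb : ψ.Realize b := (Set.ext_iff.mp h ψ).1 ha
    obtain ⟨y, hy, hyb⟩ := (hψ b).1 hb
    obtain ⟨σ, hσ⟩ := hW.exists_aut (by omega) y (hW.gen_of_sq hn3 y hy)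
    refine ⟨σ, funext fun j => ?_⟩
    simp only [Function.comp_apply]
    rw [← ht j, hσ, hyb]

lemma IsFree.homogeneous (hW : IsFree P n W x) (hn : 2 ≤ n) : Homogeneous P W := by
  intro m a b
  refine ⟨hW.homogeneous_aux hn a b, ?_⟩
  rintro ⟨σ, rfl⟩
  ext φ
  exact (StrongHomClass.realize_formula σ φ).symm

lemma IsFree.separable (hW : IsFree P n W x) (hn : 2 ≤ n) (H : Type v) [NonUnitalRing H]
    [Module P H] (hH : Isotypic P W H) : Nonempty (W ≃[Lang P] H) := by
  -- a tuple of `H` with the type of `x`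
  obtain ⟨h', hh'⟩ : tp P W (Fin.snoc x 0 : Fin (k + 1) → W) ∈ Set.range (tp P H (k := k + 1)) :=
    hH (k + 1) (by omega) ▸ Set.mem_range_self _
  let h : Fin k → H := h' ∘ Fin.castSucc
  have hh : tp P W x = tp P H h := by
    have := tp_comp hh'.symm Fin.castSucc
    rwa [Fin.snoc_comp_castSucc] at this
  choose t ht using exists_term (P := P) (n := n) (by omega) hW.1 x hW.gen
  let σ : W → H := fun w => (t w).realize h
  have hσ : ∀ s : (Lang P).Term (Fin k), σ (s.realize x) = s.realize h := fun s =>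
    (realize_eq_iff_of_tp hh _ _).1 (ht _)
  have hinj : Function.Injective σ := by
    intro u v huv
    rw [← ht u, ← ht v]
    exact (realize_eq_iff_of_tp hh _ _).2 huv
  have hsurj : Function.Surjective σ := by
    intro c
    obtain ⟨y', hy'⟩ : tp P H (Fin.snoc h c : Fin (k + 1) → H) ∈
        Set.range (tp P W (k := k + 1)) := (hH (k + 1) (by omega)).symm ▸ Set.mem_range_self _
    have hy : tp P W x = tp P W (y' ∘ Fin.castSucc) := by
      have := tp_comp hy' Fin.castSucc
      rw [Fin.snoc_comp_castSucc] at this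
      rw [this, hh]
    obtain ⟨τ, hτ⟩ := hW.homogeneous_aux hn _ _ hy
    let s := t (τ.symm (y' (Fin.last k)))
    have hs : s.realize (y' ∘ Fin.castSucc) = y' (Fin.last k) := by
      rw [← hτ, HomClass.realize_term, ht]
      simp
    have := (realize_eq_iff_of_tp hy' (s.relabel Fin.castSucc) (Term.var (Fin.last k))).1
      (by simpa using hs)
    refine ⟨s.realize x, ?_⟩
    rw [hσ]
    simpa [Fin.snoc_comp_castSucc] using this
  refine ⟨⟨Equiv.ofBijective σ ⟨hinj, hsurj⟩, fun {m} f w => ?_, fun r _ => Empty.elim r⟩⟩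
  have := hσ (Term.func f fun i => t (w i))
  simp only [Term.realize_func, ht] at this
  exact this

end free

section existence

variable (P)

/-- words of length `n` in the generators are declared zero -/
def rel (n k : ℕ) (a b : FreeAlgebra P (Fin k)) : Prop :=
  ∃ l : List (Fin k), l.length = n ∧ a = (l.map (FreeAlgebra.ι P)).prod ∧ b = 0

noncomputable def gen (n k : ℕ) (i : Fin k) : RingQuot (rel P n k) :=
  RingQuot.mkAlgHom P (rel P n k) (FreeAlgebra.ι P i)

noncomputable def Wn (n k : ℕ) : NonUnitalSubalgebra P (RingQuot (rel P n k)) :=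
  NonUnitalAlgebra.adjoin P (Set.range (gen P n k))

/-- span of the words of length at least `j` -/
noncomputable def Mj (n k j : ℕ) : Submodule P (RingQuot (rel P n k)) :=
  Submodule.span P {w | ∃ l : List (Fin k), j ≤ l.length ∧ w = (l.map (gen P n k)).prod}

variable {P}

lemma Mj_mul {n k i j : ℕ} {a b : RingQuot (rel P n k)} (ha : a ∈ Mj P n k i)
    (hb : b ∈ Mj P n k j) : a * b ∈ Mj P n k (i + j) := by
  have : Mj P n k i * Mj P n k j ≤ Mj P n k (i + j) := by
    rw [Mj, Mj, Submodule.span_mul_span]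
    refine Submodule.span_mono ?_
    rintro _ ⟨_, ⟨l, hl, rfl⟩, _, ⟨l', hl', rfl⟩, rfl⟩
    exact ⟨l ++ l', by simp; omega, by simp⟩
  exact this (Submodule.mul_mem_mul ha hb)

lemma Mj_mono {n k i j : ℕ} (h : i ≤ j) : Mj P n k j ≤ Mj P n k i := by
  refine Submodule.span_mono ?_
  rintro _ ⟨l, hl, rfl⟩
  exact ⟨l, h.trans hl, rfl⟩

lemma Mj_eq_bot (n k : ℕ) : Mj P n k n = ⊥ := by
  rw [Mj, Submodule.span_eq_bot]
  rintro _ ⟨l, hl, rfl⟩
  rw [← List.take_append_drop n l, List.map_append, List.prod_append]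
  have h : ((l.take n).map (gen P n k)).prod = 0 := by
    have := RingQuot.mkAlgHom_rel P (s := rel P n k) ⟨l.take n, by simp [hl], rfl, rfl⟩
    rw [map_list_prod, List.map_map, map_zero] at this
    exact this
  rw [h, zero_mul]

lemma mem_Mj_one {n k : ℕ} {a : RingQuot (rel P n k)} (ha : a ∈ Wn P n k) : a ∈ Mj P n k 1 := by
  induction ha using NonUnitalAlgebra.adjoin_induction with
  | mem x hx =>
    obtain ⟨i, rfl⟩ := hx
    exact Submodule.subset_span ⟨[i], le_rfl, by simp⟩
  | add x y _ _ hx hy => exact add_mem hx hy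
  | zero => exact zero_mem _
  | mul x y _ _ hx hy => exact Mj_mono (by norm_num) (Mj_mul hx hy)
  | smul c x _ hx => exact Submodule.smul_mem _ _ hx

lemma isNil_Wn (n k : ℕ) : IsNil n (Wn P n k) := by
  intro l a hl
  have key : ∀ l : List (Wn P n k),
      ((l.foldr (· * ·) a : Wn P n k) : RingQuot (rel P n k)) ∈ Mj P n k (l.length + 1) := by
    intro l
    induction l with
    | nil => exact mem_Mj_one a.2
    | cons b l ih =>
      have := Mj_mul (mem_Mj_one b.2) ih
      rw [add_comm] at this
      exact this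
  have := key l
  rw [hl, Mj_eq_bot] at this
  exact Subtype.ext this

lemma prod_inr {H : Type v} [NonUnitalRing H] [Module P H] [IsScalarTower P H H]
    [SMulCommClass P H H] (l : List H) (a : H) :
    ((l ++ [a]).map fun h : H => (h : Unitization P H)).prod = ((l.foldr (· * ·) a : H) :
      Unitization P H) := by
  induction l with
  | nil => simp
  | cons b l ih =>
    rw [List.cons_append, List.map_cons, List.prod_cons, ih]
    simp

theorem exists_free (n k : ℕ) (hn : 1 ≤ n) : IsFree P n (Wn P n k)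
    (fun i : Fin k => ⟨gen P n k i, NonUnitalAlgebra.subset_adjoin P ⟨i, rfl⟩⟩) := by
  refine ⟨isNil_Wn n k, fun H _ _ _ _ hH f => ?_⟩
  let F : FreeAlgebra P (Fin k) →ₐ[P] Unitization P H :=
    FreeAlgebra.lift P fun i => (f i : Unitization P H)
  have hF : ∀ ⦃a b⦄, rel P n k a b → F a = F b := by
    rintro _ _ ⟨l, hl, rfl, rfl⟩
    rcases List.eq_nil_or_concat l with rfl | ⟨l', i, rfl⟩
    · simp at hl; omega
    · rw [map_list_prod, List.map_map, map_zero]
      have h := prod_inr (P := P) (l'.map f) (f i)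
      rw [hH (l'.map f) (f i) (by simpa using hl)] at h
      simp only [Unitization.inr_zero] at h
      rw [← h]
      congr 1
      simp [F, Function.comp_def]
  let G : RingQuot (rel P n k) →ₐ[P] Unitization P H := RingQuot.liftAlgHom P ⟨F, hF⟩
  have hG : ∀ i, G (gen P n k i) = (f i : Unitization P H) := by
    intro i
    simp [G, gen, F]
  have hfst : ∀ a ∈ Wn P n k, (G a).fst = 0 := by
    intro a ha
    induction ha using NonUnitalAlgebra.adjoin_induction with
    | mem x hx =>
      obtain ⟨i, rfl⟩ := hx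
      simp [hG]
    | add x y _ _ hx hy => simp [hx, hy]
    | zero => simp
    | mul x y _ _ hx hy => simp [hx, hy]
    | smul c x _ hx => simp [hx]
  let φ : Wn P n k →ₙₐ[P] H :=
    { toFun := fun a => (G a).snd
      map_smul' := fun c a => by simp
      map_zero' := by simp
      map_add' := fun a b => by simp
      map_mul' := fun a b => by simp [hfst a a.2, hfst b b.2] }
  refine ⟨φ, fun i => by simp [φ, hG], fun ψ hψ => ?_⟩
  ext ⟨a, ha⟩
  induction ha using NonUnitalAlgebra.adjoin_induction with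
  | mem x hx =>
    obtain ⟨i, rfl⟩ := hx
    rw [hψ i]
    simp [φ, hG]
  | add x y hx' hy' hx hy =>
    have : (⟨x + y, add_mem hx' hy'⟩ : Wn P n k) = ⟨x, hx'⟩ + ⟨y, hy'⟩ := rfl
    rw [this, map_add, map_add, hx, hy]
  | zero => exact (map_zero ψ).trans (map_zero φ).symm
  | mul x y hx' hy' hx hy =>
    have : (⟨x * y, mul_mem hx' hy'⟩ : Wn P n k) = ⟨x, hx'⟩ * ⟨y, hy'⟩ := rfl
    rw [this, map_mul, map_mul, hx, hy]
  | smul c x hx' hx =>
    have : (⟨c • x, SMulMemClass.smul_mem c hx'⟩ : Wn P n k) = c • ⟨x, hx'⟩ := rfl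
    rw [this, map_smul, map_smul, hx]

end existence

end Pool.Agent.MP_00fd70_lc
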